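import Pool.Agent.Helper66.PD.Stmts

/-! Project PD, row INJ: names for the elements of the bags. -/

set_option autoImplicit false

namespace Pool.Agent.Helper66.PD

theorem st_INJ : ST_INJ := by
  classical
  intro P _ w l r hcard
  have hex : ∀ p : ℕ, Nonempty ({x : P // l x ≤ p ∧ p ≤ r x} ↪ Fin (w + 1)) := by
    intro p
    apply Function.Embedding.nonempty_of_card_le
    rw [Fintype.card_fin, Fintype.card_subtype]
    exact (le_of_eq (by congr)).trans (hcard p)
  have g : ∀ p : ℕ, {x : P // l x ≤ p ∧ p ≤ r x} ↪ Fin (w + 1) := fun p => Classical.choice (hex p)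
  refine ⟨fun p x => if h : l x ≤ p ∧ p ≤ r x then g p ⟨x, h⟩ else 0, ?_⟩
  intro p x y hx1 hx2 hy1 hy2 he
  have hx : l x ≤ p ∧ p ≤ r x := ⟨hx1, hx2⟩
  have hy : l y ≤ p ∧ p ≤ r y := ⟨hy1, hy2⟩
  simp only [dif_pos hx, dif_pos hy] at he
  have h1 := (g p).injective he
  exact congrArg Subtype.val h1

end Pool.Agent.Helper66.PD
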